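import Pool.Agent.U581.LB.StmJ

/-!
Project LJ, package TILT: change of measure.
-/

set_option autoImplicit false

namespace Pool.Agent.U278.LB

open Real MeasureTheory Filter Topology

theorem t_TILT : Pool.Agent.U581.LB.S_TILT := by
  intro μ w hμ hw hb
  have hint : Integrable w μ := by
    refine Integrable.of_bound hw.aestronglyMeasurable 3 (ae_of_all _ fun x => ?_)
    rw [Real.norm_eq_abs, abs_of_nonneg (by linarith [(hb x).1])]
    exact (hb x).2
  obtain ⟨W, hW⟩ : ∃ W : ℝ, W = ∫ x, w x ∂μ := ⟨_, rfl⟩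
  have hW1 : 1 ≤ W := by
    have h1 : ∫ _, (1 : ℝ) ∂μ ≤ ∫ x, w x ∂μ :=
      integral_mono (integrable_const _) hint fun x => (hb x).1
    rw [integral_const, probReal_univ, one_smul] at h1
    rw [hW]
    exact h1
  have hW0 : 0 < W := by linarith
  have hg0 : ∀ x, 0 ≤ w x / W := fun x => div_nonneg (by linarith [(hb x).1]) hW0.le
  have hg3 : ∀ x, w x / W ≤ 3 := by
    intro x
    rw [div_le_iff₀ hW0]
    have := (hb x).2
    nlinarith
  obtain ⟨φ, hφ⟩ : ∃ φ : ℝ → NNReal, φ = fun x => Real.toNNReal (w x / W) := ⟨_, rfl⟩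
  have hφm : Measurable φ := by
    rw [hφ]
    exact (hw.div_const W).real_toNNReal
  have hφc : ∀ x, (φ x : ℝ) = w x / W := by
    intro x
    rw [hφ]
    exact Real.coe_toNNReal _ (hg0 x)
  have hφe : ∀ x, (φ x : ENNReal) = ENNReal.ofReal (w x / W) := by
    intro x
    rw [hφ]
    rfl
  refine ⟨μ.withDensity (fun x => (φ x : ENNReal)), ⟨?_⟩, ?_, ?_, ?_⟩
  · rw [withDensity_apply _ MeasurableSet.univ, setLIntegral_univ]
    simp only [hφe]
    rw [← ofReal_integral_eq_lintegral_ofReal (hint.div_const W) (ae_of_all _ hg0),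
      integral_div, ← hW, div_self hW0.ne', ENNReal.ofReal_one]
  · intro f
    rw [integral_withDensity_eq_integral_smul hφm, ← hW, ← integral_div]
    refine integral_congr_ae (ae_of_all _ fun x => ?_)
    show (φ x) • f x = (w x : ℂ) * f x / (W : ℂ)
    rw [NNReal.smul_def, hφc, Complex.real_smul]
    push_cast
    ring
  · intro f
    rw [integral_withDensity_eq_integral_smul hφm, ← hW, ← integral_div]
    refine integral_congr_ae (ae_of_all _ fun x => ?_)
    show (φ x) • f x = w x * f x / W
    rw [NNReal.smul_def, hφc, smul_eq_mul]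
    ring
  · intro s
    have h1 : μ.withDensity (fun x => (φ x : ENNReal)) s ≤ 3 * μ s := by
      rw [withDensity_apply']
      calc ∫⁻ a in s, (φ a : ENNReal) ∂μ ≤ ∫⁻ _ in s, (3 : ENNReal) ∂μ := by
            refine lintegral_mono fun x => ?_
            show (φ x : ENNReal) ≤ 3
            rw [hφe]
            calc ENNReal.ofReal (w x / W) ≤ ENNReal.ofReal 3 := ENNReal.ofReal_le_ofReal (hg3 x)
              _ = 3 := by norm_num
        _ = 3 * μ s := by
            rw [lintegral_const, Measure.restrict_apply_univ]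
    unfold Measure.real
    have h2 : (3 * μ s).toReal = 3 * (μ s).toReal := by
      rw [ENNReal.toReal_mul]
      norm_num
    rw [← h2]
    exact ENNReal.toReal_mono (ENNReal.mul_ne_top (by norm_num) (measure_ne_top μ s)) h1

end Pool.Agent.U278.LB
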